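import Mathlib

/-! Uniform bounds for the cuts between blocks, by induction on the places inside the blocks. -/

open Finset Filter Topology

namespace Pool.Agent.P.MP_f511bc_an.Pos

variable {K E : Type*} [RCLike K] [NormedAddCommGroup E] [NormedSpace K E]

/-- The vector with coefficients `α` below `N`. -/
noncomputable def ev (x : ℕ → E) (N : ℕ) : (ℕ → K) →ₗ[K] E :=
  ∑ i ∈ range N, (LinearMap.proj i : (ℕ → K) →ₗ[K] K).smulRight (x i)

theorem ev_apply (x : ℕ → E) (N : ℕ) (α : ℕ → K) : ev x N α = ∑ i ∈ range N, α i • x i := by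
  simp [ev]

/-- The coefficients in the blocks up to `k`. -/
def cut (κ : ℕ → ℕ) (k : ℕ) (α : ℕ → K) : ℕ → K := fun i => if κ i ≤ k then α i else 0

theorem bv (x : ℕ → E) (N : ℕ) (κ : ℕ → ℕ) (α : ℕ → K) {B W : ℝ}
    (hB : ∀ k, ‖ev x N (cut κ k α)‖ ≤ B) (g : ℕ → K)
    (hg : ∀ n, ∑ a ∈ range n, ‖g a - g (a + 1)‖ + ‖g n‖ ≤ W) :
    ‖ev x N fun i => g (κ i) * α i‖ ≤ W * B := by
  obtain ⟨n, hn⟩ : ∃ n, ∀ i ∈ range N, κ i ≤ n := ⟨(range N).sup κ, fun i hi => le_sup hi⟩
  have tel : ∀ m n : ℕ, m ≤ n →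
      ∑ a ∈ range n, (if m ≤ a then g a - g (a + 1) else 0) + g n = g m := by
    intro m n h
    induction n, h using Nat.le_induction with
    | base =>
      rw [sum_eq_zero fun a ha => if_neg (not_le.2 (mem_range.1 ha)), zero_add]
    | succ n h ih => rw [sum_range_succ, if_pos h, ← ih]; ring
  have e : (ev x N fun i => g (κ i) * α i) =
      ∑ a ∈ range n, (g a - g (a + 1)) • ev x N (cut κ a α) + g n • ev x N (cut κ n α) := by
    simp only [← map_smul, ← map_sum, ← map_add]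
    rw [ev_apply, ev_apply]
    refine sum_congr rfl fun i hi => ?_
    congr 1
    rw [← tel _ _ (hn i hi)]
    simp only [Pi.add_apply, Finset.sum_apply, Pi.smul_apply, cut, smul_eq_mul, if_pos (hn i hi),
      add_mul, sum_mul]
    congr 1
    refine sum_congr rfl fun a _ => ?_
    split_ifs <;> simp
  have hB0 : 0 ≤ B := (norm_nonneg _).trans (hB 0)
  rw [e]
  refine (norm_add_le _ _).trans (le_trans ?_ (mul_le_mul_of_nonneg_right (hg n) hB0))
  rw [add_mul, sum_mul, norm_smul]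
  refine add_le_add ((norm_sum_le _ _).trans (sum_le_sum fun a _ => ?_)) ?_
  · rw [norm_smul]
    exact mul_le_mul_of_nonneg_left (hB a) (norm_nonneg _)
  · exact mul_le_mul_of_nonneg_left (hB n) (norm_nonneg _)

theorem pow_sub_le {a b : K} {θ : ℝ} (hθ : 0 < θ) (ha : ‖a‖ ≤ θ) (hb : ‖b‖ ≤ θ) (j : ℕ) :
    ‖a ^ j - b ^ j‖ ≤ j * θ ^ j / θ * ‖a - b‖ := by
  induction j with
  | zero => simp
  | succ j ih =>
    have e : a ^ (j + 1) - b ^ (j + 1) = a * (a ^ j - b ^ j) + b ^ j * (a - b) := by ring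
    have h1 : ‖a * (a ^ j - b ^ j)‖ ≤ θ * (j * θ ^ j / θ * ‖a - b‖) := by
      rw [norm_mul]
      exact mul_le_mul ha ih (norm_nonneg _) hθ.le
    have h2 : ‖b ^ j * (a - b)‖ ≤ θ ^ j * ‖a - b‖ := by
      rw [norm_mul, norm_pow]
      gcongr
    rw [e]
    refine (norm_add_le_of_le h1 h2).trans (le_of_eq ?_)
    push_cast
    field_simp
    ring

theorem boot {P : ℝ → Prop} {A β : ℝ} (hm : ∀ a b, a ≤ b → P a → P b) (hA : 0 ≤ A) (h0 : 0 ≤ β)
    (hβ : P β) (hs : ∀ b, 0 ≤ b → P b → P ((A + b) / 2)) : P (A + 1) := by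
  have h : ∀ n : ℕ, P (A + β * (1 / 2) ^ n) := by
    intro n
    induction n with
    | zero => exact hm _ _ (by simp [hA]) hβ
    | succ n ih => exact hm _ _ (le_of_eq (by ring)) (hs _ (by positivity) ih)
  obtain ⟨n, hn⟩ := exists_pow_lt_of_lt_one (x := 1 / (β + 1)) (y := (1 / 2 : ℝ)) (by positivity)
    (by norm_num)
  refine hm _ _ ?_ (h n)
  rw [lt_div_iff₀ (by positivity)] at hn
  have : (0 : ℝ) < (1 / 2) ^ n := by positivity
  nlinarith

theorem core (x : ℕ → E) (κ l : ℕ → ℕ) (c : ℕ → ℕ → ℕ) (hc : ∀ i, c (l i) (κ i) = i)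
    (y : ℕ → ℕ → K) {L θ V : ℝ} (cf : ℕ → K) (hcf : ∀ j, ‖cf j‖ ≤ 1) (hθ0 : 0 < θ) (hθ : θ < 1)
    (hL0 : 0 < L) (hu : ∀ k i, ‖1 - y k i ^ 2‖ ≤ θ)
    (hV : ∀ k r n, ∑ a ∈ range n, ‖y k (c r a) ^ 2 - y k (c r (a + 1)) ^ 2‖ ≤ V)
    (hs : ∀ k i, HasSum (fun j => cf j * y k i * (1 - y k i ^ 2) ^ j) (if κ i ≤ k then 1 else -1))
    (hL : ∀ N k (α : ℕ → K), ‖ev x N fun i => y k i * α i‖ ≤ L * ‖ev x N α‖)
    (hfin : ∀ N, ∃ β : ℝ, 0 ≤ β ∧ ∀ k (α : ℕ → K), ‖ev x N (cut κ k α)‖ ≤ β * ‖ev x N α‖) (r : ℕ) :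
    ∃ (b : ℝ) (γ : ℕ → ℝ), 0 ≤ b ∧ (∀ j, 0 ≤ γ j) ∧ Summable γ ∧
      ∀ N (α : ℕ → K), (∀ i, r ≤ l i → α i = 0) →
        (∀ k, ‖ev x N (cut κ k α)‖ ≤ b * ‖ev x N α‖) ∧
        ∀ k j, ‖ev x N fun i => (1 - y k i ^ 2) ^ j * α i‖ ≤ γ j * ‖ev x N α‖ := by
  have hV0 : 0 ≤ V := by simpa using hV 0 0 0
  let w : ℕ → ℝ := fun j => j * θ ^ j / θ * V + θ ^ j
  have hw0 : ∀ j, 0 ≤ w j := fun j => by positivity
  have hθ' : ‖θ‖ < 1 := by rwa [Real.norm_of_nonneg hθ0.le]
  have hws : Summable w := by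
    have h1 := summable_pow_mul_geometric_of_norm_lt_one 1 hθ'
    simp only [pow_one] at h1
    exact ((h1.div_const θ).mul_right V).add (summable_geometric_of_lt_one hθ0.le hθ)
  have hD : ∀ N k r j (α : ℕ → K) (B : ℝ), (∀ k, ‖ev x N (cut κ k α)‖ ≤ B) →
      ‖ev x N fun i => (1 - y k (c r (κ i)) ^ 2) ^ j * α i‖ ≤ w j * B := by
    intro N k r j α B hB
    refine bv x N κ α hB (fun a => (1 - y k (c r a) ^ 2) ^ j) fun n => add_le_add ?_ ?_
    · refine (sum_le_sum fun a _ => pow_sub_le hθ0 (hu _ _) (hu _ _) j).trans ?_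
      rw [← mul_sum]
      refine mul_le_mul_of_nonneg_left (le_trans (le_of_eq ?_) (hV k r n)) (by positivity)
      refine sum_congr rfl fun a _ => ?_
      rw [sub_sub_sub_cancel_left, norm_sub_rev]
    · rw [norm_pow]
      exact pow_le_pow_left₀ (norm_nonneg _) (hu _ _) j
  have hU1 : ∀ N k (α : ℕ → K),
      ‖ev x N fun i => (1 - y k i ^ 2) * α i‖ ≤ (1 + L ^ 2) * ‖ev x N α‖ := by
    intro N k α
    have e : (fun i => (1 - y k i ^ 2) * α i) = α - fun i => y k i * (y k i * α i) := by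
      funext i
      simp only [Pi.sub_apply]
      ring
    rw [e, map_sub]
    refine (norm_sub_le _ _).trans ?_
    have h1 := hL N k fun i => y k i * α i
    have h2 := mul_le_mul_of_nonneg_left (hL N k α) hL0.le
    nlinarith
  have hU : ∀ N k j (α : ℕ → K),
      ‖ev x N fun i => (1 - y k i ^ 2) ^ j * α i‖ ≤ (1 + L ^ 2) ^ j * ‖ev x N α‖ := by
    intro N k j α
    induction j with
    | zero => simp
    | succ j ih =>
      have h1 := hU1 N k fun i => (1 - y k i ^ 2) ^ j * α i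
      simp only [← mul_assoc, ← pow_succ'] at h1
      refine h1.trans ((mul_le_mul_of_nonneg_left ih (by positivity)).trans (le_of_eq ?_))
      ring
  induction r with
  | zero =>
    refine ⟨0, 0, le_rfl, fun _ => le_rfl, summable_zero, fun N α hα => ?_⟩
    have : α = 0 := funext fun i => hα i (Nat.zero_le _)
    subst this
    refine ⟨fun k => ?_, fun k j => ?_⟩
    · simp [ev_apply, cut]
    · simp [ev_apply]
  | succ r ih =>
    obtain ⟨b, γ, hb, hγ, hγs, ih⟩ := ih
    let γ' : ℕ → ℝ := fun j =>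
      w j + (∑ a ∈ range j, γ a * w (j - 1 - a)) * (b * (1 + L ^ 2 + w 1))
    have hγ'0 : ∀ j, 0 ≤ γ' j := fun j =>
      add_nonneg (hw0 j) (mul_nonneg (sum_nonneg fun a _ => mul_nonneg (hγ a) (hw0 _))
        (mul_nonneg hb (add_nonneg (by positivity) (hw0 1))))
    have hγ's : Summable γ' := by
      refine hws.add (Summable.mul_right _ ((summable_nat_add_iff 1).1 ?_))
      exact (summable_norm_sum_mul_range_of_summable_norm hγs.norm hws.norm).of_norm
    have key : ∀ N (β : ℝ), 0 ≤ β → ∀ α : ℕ → K, (∀ i, r + 1 ≤ l i → α i = 0) →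
        (∀ k, ‖ev x N (cut κ k α)‖ ≤ β * ‖ev x N α‖) → ∀ k j,
        ‖ev x N fun i => (1 - y k i ^ 2) ^ j * α i‖ ≤ γ' j * ((1 + β) * ‖ev x N α‖) := by
      intro N β hβ α hα hP k j
      set ν := ‖ev x N α‖ with hν
      have hν0 : 0 ≤ ν := norm_nonneg _
      let u : ℕ → K := fun i => 1 - y k i ^ 2
      let d : ℕ → K := fun i => 1 - y k (c r (κ i)) ^ 2
      let n : ℕ → K := fun i => (u i - d i) * α i
      have hn : ∀ i, r ≤ l i → n i = 0 := by
        intro i hi
        rcases hi.eq_or_lt with h | h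
        · simp only [n, u, d, h, hc, sub_self, zero_mul]
        · simp only [n, hα i h, mul_zero]
      have hn1 : ‖ev x N n‖ ≤ (1 + L ^ 2 + w 1) * ((1 + β) * ν) := by
        have e : n = (fun i => (1 - y k i ^ 2) * α i) -
            fun i => (1 - y k (c r (κ i)) ^ 2) ^ 1 * α i := by
          funext i
          simp only [n, u, d, Pi.sub_apply]
          ring
        rw [e, map_sub]
        refine (norm_sub_le_of_le (hU1 N k α) (hD N k r 1 α _ hP)).trans ?_
        have h1 := hw0 1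
        have h2 : 0 ≤ (1 + L ^ 2) * (β * ν) := by positivity
        have h3 : 0 ≤ w 1 * ν := by positivity
        nlinarith
      have e : (fun i => (1 - y k i ^ 2) ^ j * α i) = (fun i => d i ^ j * α i) +
          ∑ a ∈ range j, fun i => u i ^ a * (d i ^ (j - 1 - a) * n i) := by
        funext i
        have h := geom_sum₂_mul (u i) (d i) j
        simp only [Pi.add_apply, Finset.sum_apply, n, ← mul_assoc, ← sum_mul, h]
        simp only [u]
        ring
      rw [e, map_add, map_sum]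
      have h1 : ‖ev x N fun i => d i ^ j * α i‖ ≤ w j * ((1 + β) * ν) :=
        (hD N k r j α _ hP).trans (mul_le_mul_of_nonneg_left (by nlinarith) (hw0 j))
      have h2 : ∀ a ∈ range j, ‖ev x N fun i => u i ^ a * (d i ^ (j - 1 - a) * n i)‖ ≤
          γ a * w (j - 1 - a) * (b * (1 + L ^ 2 + w 1)) * ((1 + β) * ν) := by
        intro a _
        have h3 := (ih N (fun i => d i ^ (j - 1 - a) * n i)
          fun i hi => by simp only [hn i hi, mul_zero]).2 k a
        have h4 := hD N k r (j - 1 - a) n _ (ih N n hn).1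
        refine h3.trans ((mul_le_mul_of_nonneg_left (h4.trans (mul_le_mul_of_nonneg_left
          (mul_le_mul_of_nonneg_left hn1 hb) (hw0 _))) (hγ a)).trans (le_of_eq ?_))
        ring
      refine (norm_add_le_of_le h1 ((norm_sum_le _ _).trans (sum_le_sum h2))).trans (le_of_eq ?_)
      simp only [γ', ← sum_mul]
      ring
    obtain ⟨J, hJ⟩ : ∃ J, L * ∑' j, γ' (j + J) ≤ 1 := by
      have h := (tendsto_sum_nat_add γ').const_mul L
      rw [mul_zero] at h
      exact (h.eventually (ge_mem_nhds one_pos)).exists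
    let A : ℝ := 2 + ∑ j ∈ range J, L * (1 + L ^ 2) ^ j
    have hA : 0 ≤ A := by positivity
    have step : ∀ N (α : ℕ → K), (∀ i, r + 1 ≤ l i → α i = 0) → ∀ β : ℝ, 0 ≤ β →
        (∀ k, ‖ev x N (cut κ k α)‖ ≤ β * ‖ev x N α‖) →
        ∀ k, ‖ev x N (cut κ k α)‖ ≤ (A + β) / 2 * ‖ev x N α‖ := by
      intro N α hα β hβ hP k
      set ν := ‖ev x N α‖ with hν
      have hν0 : 0 ≤ ν := norm_nonneg _
      let f : ℕ → E := fun j => cf j • ev x N fun i => y k i * ((1 - y k i ^ 2) ^ j * α i)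
      have hf : HasSum f ((2 : K) • ev x N (cut κ k α) - ev x N α) := by
        have h := hasSum_sum (s := range N) fun i _ => ((hs k i).mul_right (α i)).smul_const (x i)
        have e1 : f = fun j => ∑ i ∈ range N, (cf j * y k i * (1 - y k i ^ 2) ^ j * α i) • x i := by
          funext j
          simp only [f, ev_apply, smul_sum, smul_smul, mul_assoc]
        have e2 : (2 : K) • ev x N (cut κ k α) - ev x N α =
            ∑ i ∈ range N, ((if κ i ≤ k then 1 else -1) * α i) • x i := by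
          rw [← map_smul, ← map_sub, ev_apply]
          refine sum_congr rfl fun i _ => ?_
          congr 1
          simp only [Pi.sub_apply, Pi.smul_apply, cut, smul_eq_mul]
          split_ifs <;> ring
        rw [e1, e2]
        exact h
      have hf1 : ∀ j, ‖f j‖ ≤ L * ‖ev x N fun i => (1 - y k i ^ 2) ^ j * α i‖ := fun j => by
        rw [norm_smul]
        exact (mul_le_of_le_one_left (norm_nonneg _) (hcf j)).trans (hL N k _)
      have h1 := ((hasSum_nat_add_iff' J).2 hf).norm_le_of_bounded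
        ((((summable_nat_add_iff J).2 hγ's).hasSum.mul_left L).mul_right ((1 + β) * ν))
        fun j => (hf1 _).trans (by
          rw [mul_assoc L]
          exact mul_le_mul_of_nonneg_left (key N β hβ α hα hP k _) hL0.le)
      have h2 : ‖∑ j ∈ range J, f j‖ ≤ (∑ j ∈ range J, L * (1 + L ^ 2) ^ j) * ν := by
        rw [sum_mul]
        refine (norm_sum_le _ _).trans (sum_le_sum fun j _ => (hf1 j).trans ?_)
        rw [mul_assoc]
        exact mul_le_mul_of_nonneg_left (hU N k j α) hL0.le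
      have h3 := h1.trans (mul_le_of_le_one_left (by positivity) hJ)
      have h4 : ‖(2 : K) • ev x N (cut κ k α)‖ ≤
          (1 + β) * ν + (∑ j ∈ range J, L * (1 + L ^ 2) ^ j) * ν + ν := by
        have e : (2 : K) • ev x N (cut κ k α) = ((2 : K) • ev x N (cut κ k α) - ev x N α -
            ∑ j ∈ range J, f j) + ∑ j ∈ range J, f j + ev x N α := by abel
        rw [e]
        exact norm_add_le_of_le (norm_add_le_of_le h3 h2) le_rfl
      rw [norm_smul, RCLike.norm_two] at h4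
      simp only [A]
      linarith
    have fin : ∀ N (α : ℕ → K), (∀ i, r + 1 ≤ l i → α i = 0) →
        ∀ k, ‖ev x N (cut κ k α)‖ ≤ (A + 1) * ‖ev x N α‖ := by
      intro N α hα
      obtain ⟨β, hβ, h⟩ := hfin N
      exact boot (P := fun b => ∀ k, ‖ev x N (cut κ k α)‖ ≤ b * ‖ev x N α‖)
        (fun a b hab h k => (h k).trans (mul_le_mul_of_nonneg_right hab (norm_nonneg _))) hA hβ
        (fun k => h k α) (step N α hα)
    refine ⟨A + 1, fun j => γ' j * (1 + (A + 1)), by positivity,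
      fun j => mul_nonneg (hγ'0 j) (by positivity), hγ's.mul_right _, fun N α hα =>
      ⟨fin N α hα, fun k j => ?_⟩⟩
    rw [mul_assoc]
    exact key N (A + 1) (by positivity) α hα (fin N α hα) k j

end Pool.Agent.P.MP_f511bc_an.Pos
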