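import Pool.Agent.P.MP_f511bc_an.Nb.Hil

/-! A decomposition into blocks of bounded dimension gives a Schauder basis. -/

open Finset Module Filter Topology

namespace Pool.Agent.P.MP_f511bc_an.Pos

variable {K E : Type*} [RCLike K] [NormedAddCommGroup E] [NormedSpace K E]

/-- An Auerbach basis of one block, indexed by the places of the block. -/
theorem fdd_block (x : ℕ → E) (s : Finset ℕ) (hx : LinearIndependent K fun i : s => x i) :
    ∃ e : ℕ → E, (∀ i, ‖e i‖ ≤ 1) ∧
      (∀ i, e i ∈ Submodule.span K (Set.range fun i : s => x i)) ∧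
      (∀ a : ℕ → K, ∑ i ∈ s, a i • e i = 0 → ∀ i ∈ s, a i = 0) ∧
      ∀ v ∈ Submodule.span K (Set.range fun i : s => x i),
        ∃ a : ℕ → K, (∀ i, ‖a i‖ ≤ ‖v‖) ∧ ∑ i ∈ s, a i • e i = v := by
  classical
  set G := Submodule.span K (Set.range fun i : s => x i) with hG
  have : FiniteDimensional K G := FiniteDimensional.span_of_finite K (Set.finite_range _)
  have hd : finrank K G = Fintype.card s := finrank_span_eq_card hx
  obtain ⟨v, hv1, hv2⟩ := Nb.auerbach (K := K) (G := G)
  have σ : s ≃ Fin (finrank K G) := Fintype.equivFinOfCardEq hd.symm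
  have hli : LinearIndependent K v := by
    refine linearIndependent_of_top_le_span_of_card_eq_finrank (fun y _ => ?_) (by simp)
    obtain ⟨a, -, rfl⟩ := hv2 y
    exact Submodule.sum_mem _ fun i _ =>
      Submodule.smul_mem _ _ (Submodule.subset_span ⟨i, rfl⟩)
  have key : ∀ a : ℕ → K, ∑ i ∈ s, a i • (if h : i ∈ s then (v (σ ⟨i, h⟩) : E) else 0) =
      ((∑ j, a (σ.symm j) • v j : G) : E) := by
    intro a
    rw [← Finset.sum_coe_sort s, ← σ.symm.sum_comp]
    simp
  refine ⟨fun i => if h : i ∈ s then (v (σ ⟨i, h⟩) : E) else 0, fun i => ?_, fun i => ?_,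
    fun a ha i hi => ?_, fun y hy => ?_⟩
  · by_cases h : i ∈ s
    · simpa [h] using hv1 _
    · simp [h]
  · by_cases h : i ∈ s
    · simp [h]
    · simp [h]
  · rw [key, Submodule.coe_eq_zero] at ha
    simpa using Fintype.linearIndependent_iff.1 hli _ ha (σ ⟨i, hi⟩)
  · obtain ⟨a, ha1, ha2⟩ := hv2 ⟨y, hy⟩
    refine ⟨fun i => if h : i ∈ s then a (σ ⟨i, h⟩) else 0, fun i => ?_, ?_⟩
    · by_cases h : i ∈ s
      · simpa [h] using ha1 _
      · simp [h]
    · rw [key]
      simp [ha2]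

/-- The projection on the places of `s`. -/
noncomputable def fddP (x : ℕ → E) (f : ℕ → E →L[K] K) (s : Finset ℕ) : E →L[K] E :=
  ∑ i ∈ s, (f i).smulRight (x i)

theorem fddP_apply (x : ℕ → E) (f : ℕ → E →L[K] K) (s : Finset ℕ) (y : E) :
    fddP x f s y = ∑ i ∈ s, f i y • x i := by
  simp [fddP]

theorem fddP_x {x : ℕ → E} {f : ℕ → E →L[K] K} (hb : ∀ i j, f i (x j) = if i = j then 1 else 0)
    (s : Finset ℕ) (j : ℕ) : fddP x f s (x j) = if j ∈ s then x j else 0 := by
  simp [fddP_apply, hb]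

theorem fdd_lim (x : ℕ → E) (f : ℕ → E →L[K] K) (hb : ∀ i j, f i (x j) = if i = j then 1 else 0)
    (hd : Dense (Submodule.span K (Set.range x) : Set E)) (M : ℕ → ℕ) (hM : StrictMono M) (b : ℝ)
    (hS : ∀ k, ∀ v ∈ Submodule.span K (Set.range x),
      ‖∑ i ∈ range (M k), f i v • x i‖ ≤ b * ‖v‖) (y : E) :
    Tendsto (fun k => fddP x f (range (M k)) y) atTop (𝓝 y) := by
  have h1 : ∀ k z, ‖fddP x f (range (M k)) z‖ ≤ |b| * ‖z‖ := by
    intro k z
    have hc : IsClosed {z : E | ‖fddP x f (range (M k)) z‖ ≤ |b| * ‖z‖} :=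
      isClosed_le (by fun_prop) (by fun_prop)
    refine closure_minimal (fun v hv => ?_) hc (hd z)
    rw [Set.mem_ofPred_eq, fddP_apply]
    exact (hS k v hv).trans (mul_le_mul_of_nonneg_right (le_abs_self b) (norm_nonneg _))
  have h2 : ∀ v ∈ Submodule.span K (Set.range x), ∀ᶠ k in atTop, fddP x f (range (M k)) v = v := by
    intro v hv
    induction hv using Submodule.span_induction with
    | mem z hz =>
      obtain ⟨j, rfl⟩ := hz
      filter_upwards [eventually_gt_atTop j] with k hk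
      rw [fddP_x hb, if_pos (mem_range.2 (hk.trans_le (hM.id_le k)))]
    | zero => simp
    | add z w _ _ hz hw =>
      filter_upwards [hz, hw] with k h h'
      rw [map_add, h, h']
    | smul c z _ hz =>
      filter_upwards [hz] with k h
      rw [map_smul, h]
  rw [Metric.tendsto_nhds]
  intro ε hε
  have hp : 0 < |b| + 1 := by positivity
  obtain ⟨v, hv, hvy⟩ := hd.exists_dist_lt y (div_pos hε hp)
  filter_upwards [h2 v hv] with k hk
  rw [dist_eq_norm] at hvy ⊢
  have e : fddP x f (range (M k)) y - y = fddP x f (range (M k)) (y - v) - (y - v) := by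
    rw [map_sub, hk]
    abel
  rw [lt_div_iff₀ hp] at hvy
  have := h1 k (y - v)
  have := norm_sub_le (fddP x f (range (M k)) (y - v)) (y - v)
  rw [e]
  nlinarith

theorem fdd_basis (x : ℕ → E) (f : ℕ → E →L[K] K)
    (hb : ∀ i j, f i (x j) = if i = j then 1 else 0)
    (hd : Dense (Submodule.span K (Set.range x) : Set E)) (M : ℕ → ℕ) (h0 : M 0 = 0)
    (hM : StrictMono M) (D : ℕ) (hD : ∀ k, M (k + 1) ≤ M k + D) (b : ℝ)
    (hS : ∀ k, ∀ v ∈ Submodule.span K (Set.range x),
      ‖∑ i ∈ range (M k), f i v • x i‖ ≤ b * ‖v‖) :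
    ∃ e : ℕ → E, ∀ y : E, ∃! α : ℕ → K,
      Tendsto (fun n => ∑ i ∈ range n, α i • e i) atTop (𝓝 y) := by
  classical
  have hlim := fdd_lim x f hb hd M hM b hS
  have hli : LinearIndependent K x := by
    refine linearIndependent_iff'.2 fun s g hg i hi => ?_
    have := congrArg (f i) hg
    simpa [hb, hi] using this
  choose e he1 he2 he3 he4 using fun k =>
    fdd_block (K := K) x (Ico (M k) (M (k + 1))) (hli.comp _ Subtype.val_injective)
  have hex : ∀ n, ∃ k, n < M (k + 1) := fun n =>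
    ⟨n, (Nat.lt_succ_self n).trans_le (hM.id_le (n + 1))⟩
  obtain ⟨κ, hκ1, hκ2⟩ : ∃ κ : ℕ → ℕ, (∀ n, M (κ n) ≤ n) ∧ ∀ n, n < M (κ n + 1) := by
    refine ⟨fun n => Nat.find (hex n), fun n => ?_, fun n => Nat.find_spec (hex n)⟩
    rcases h : Nat.find (hex n) with _ | k
    · simp [h, h0]
    · have := Nat.find_min (hex n) (m := k) (by omega)
      simpa [h] using this
  have hκ : ∀ k, ∀ i ∈ Ico (M k) (M (k + 1)), κ i = k := by
    intro k i hi
    rw [mem_Ico] at hi
    have a1 := hM.lt_iff_lt.1 ((hκ1 i).trans_lt hi.2)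
    have a2 := hM.lt_iff_lt.1 (hi.1.trans_lt (hκ2 i))
    omega
  have hκt : Tendsto κ atTop atTop := by
    refine tendsto_atTop.2 fun k => ?_
    filter_upwards [eventually_ge_atTop (M k)] with n hn
    have := hM.lt_iff_lt.1 (hn.trans_lt (hκ2 n))
    omega
  have hP : ∀ k l, ∀ v ∈ Submodule.span K (Set.range fun i : Ico (M l) (M (l + 1)) => x i),
      fddP x f (Ico (M k) (M (k + 1))) v = if l = k then v else 0 := by
    intro k l v hv
    induction hv using Submodule.span_induction with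
    | mem z hz =>
      obtain ⟨j, rfl⟩ := hz
      rw [fddP_x hb]
      by_cases h : l = k
      · subst h
        rw [if_pos j.2, if_pos rfl]
      · rw [if_neg h, if_neg fun hj => h ((hκ l j j.2).symm.trans (hκ k j hj))]
    | zero => simp
    | add z w _ _ hz hw =>
      rw [map_add, hz, hw]
      split_ifs <;> simp
    | smul c z _ hz =>
      rw [map_smul, hz]
      split_ifs <;> simp
  have hblk : ∀ (a : ℕ → K) k, ∑ i ∈ Ico (M k) (M (k + 1)), a i • e (κ i) i =
      ∑ i ∈ Ico (M k) (M (k + 1)), a i • e k i := fun a k =>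
    sum_congr rfl fun i hi => by rw [hκ k i hi]
  refine ⟨fun i => e (κ i) i, fun y => ?_⟩
  have hmem : ∀ k, fddP x f (Ico (M k) (M (k + 1))) y ∈
      Submodule.span K (Set.range fun i : Ico (M k) (M (k + 1)) => x i) := by
    intro k
    rw [fddP_apply]
    exact Submodule.sum_mem _ fun i hi =>
      Submodule.smul_mem _ _ (Submodule.subset_span ⟨⟨i, hi⟩, rfl⟩)
  choose A hA1 hA2 using fun k => he4 k _ (hmem k)
  have hstep : ∀ k, fddP x f (Ico (M k) (M (k + 1))) y =
      fddP x f (range (M (k + 1))) y - fddP x f (range (M k)) y := by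
    intro k
    simp only [fddP_apply]
    exact sum_Ico_eq_sub _ (hM.monotone (Nat.le_succ k))
  have hfull : ∀ k, ∑ i ∈ range (M k), A (κ i) i • e (κ i) i = fddP x f (range (M k)) y := by
    intro k
    induction k with
    | zero => simp [h0, fddP_apply]
    | succ k ih =>
      rw [← sum_range_add_sum_Ico _ (hM.monotone (Nat.le_succ k)), ih,
        sum_congr rfl fun i hi => by rw [hκ k i hi], hA2, hstep]
      abel
  have hzero : Tendsto (fun k => ‖fddP x f (Ico (M k) (M (k + 1))) y‖) atTop (𝓝 0) := by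
    have := ((hlim y).comp (tendsto_add_atTop_nat 1)).sub (hlim y)
    rw [sub_self] at this
    simpa only [hstep, norm_zero, Function.comp_def] using this.norm
  have hconv : Tendsto (fun n => ∑ i ∈ range n, A (κ i) i • e (κ i) i) atTop (𝓝 y) := by
    have h1 : Tendsto (fun n => ∑ i ∈ Ico (M (κ n)) n, A (κ i) i • e (κ i) i) atTop (𝓝 0) := by
      have h2 := (hzero.comp hκt).const_mul (D : ℝ)
      rw [mul_zero] at h2
      refine squeeze_zero_norm (fun n => ?_) h2
      have h3 : ∀ i ∈ Ico (M (κ n)) n, ‖A (κ i) i • e (κ i) i‖ ≤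
          ‖fddP x f (Ico (M (κ n)) (M (κ n + 1))) y‖ := by
        intro i hi
        rw [hκ (κ n) i (Ico_subset_Ico_right (hκ2 n).le hi), norm_smul]
        exact (mul_le_of_le_one_right (norm_nonneg _) (he1 _ _)).trans (hA1 _ _)
      refine (norm_sum_le _ _).trans ((sum_le_card_nsmul _ _ _ h3).trans ?_)
      rw [nsmul_eq_mul, Nat.card_Ico]
      refine mul_le_mul_of_nonneg_right ?_ (norm_nonneg _)
      have := hD (κ n)
      have := hκ2 n
      exact_mod_cast (by omega : n - M (κ n) ≤ D)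
    have h4 := ((hlim y).comp hκt).add h1
    rw [add_zero] at h4
    refine h4.congr fun n => ?_
    rw [Function.comp_apply, ← hfull, sum_range_add_sum_Ico _ (hκ1 n)]
  refine ⟨fun i => A (κ i) i, hconv, fun α hα => ?_⟩
  have h5 := hα.sub hconv
  rw [sub_self] at h5
  funext i
  have h6 := ((fddP x f (Ico (M (κ i)) (M (κ i + 1)))).continuous.tendsto 0).comp h5
  rw [map_zero] at h6
  have h7 : ∀ᶠ n in atTop, (fddP x f (Ico (M (κ i)) (M (κ i + 1))) ∘ fun n =>
      ∑ j ∈ range n, α j • e (κ j) j - ∑ j ∈ range n, A (κ j) j • e (κ j) j) n =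
      ∑ j ∈ Ico (M (κ i)) (M (κ i + 1)), (α j - A (κ j) j) • e (κ i) j := by
    filter_upwards [eventually_ge_atTop (M (κ i + 1))] with n hn
    rw [Function.comp_apply, ← sum_sub_distrib, map_sum, ← hblk]
    symm
    refine sum_subset_zero_on_sdiff (fun j hj => mem_range.2 ((mem_Ico.1 hj).2.trans_le hn))
      (fun j hj => ?_) fun j hj => ?_
    · rw [← sub_smul, map_smul, hP _ _ _ (he2 _ _), if_neg, smul_zero]
      intro h
      exact (mem_sdiff.1 hj).2 (h ▸ mem_Ico.2 ⟨hκ1 j, hκ2 j⟩)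
    · rw [← sub_smul, map_smul, hP _ _ _ (he2 _ _), if_pos (hκ _ j hj)]
  have h8 := tendsto_nhds_unique (tendsto_const_nhds.congr' (h7.mono fun _ h => h.symm)) h6
  exact sub_eq_zero.1 (he3 (κ i) (fun j => α j - A (κ j) j) h8 i (mem_Ico.2 ⟨hκ1 i, hκ2 i⟩))

end Pool.Agent.P.MP_f511bc_an.Pos
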