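import Mathlib

/-! One large entry of an almost nonnegative row separates the tails of the row. -/

open Finset Filter Topology RCLike

namespace Pool.Agent.P.MP_f511bc_an.Pos

variable {K : Type*} [RCLike K]

theorem lobe {y : K} {δ : ℝ} (h1 : δ ^ 2 ≤ re y ^ 2) (h2 : im y ^ 2 ≤ δ ^ 2 / 4)
    (h3 : ‖y‖ ≤ 1 / 2) : ‖1 - y ^ 2‖ ≤ 1 - δ ^ 2 / 2 := by
  have h4 : re y ^ 2 + im y ^ 2 ≤ 1 / 4 := by
    have h := pow_le_pow_left₀ (norm_nonneg y) h3 2
    rw [norm_sq_eq_def] at h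
    linarith
  have h5 : ‖1 - y ^ 2‖ ^ 2 =
      1 - 2 * (re y ^ 2 - im y ^ 2) + (re y ^ 2 + im y ^ 2) * (re y ^ 2 + im y ^ 2) := by
    rw [norm_sq_eq_def, sq y]
    simp only [map_sub, mul_re, mul_im, one_re, one_im]
    ring
  have h6 : (re y ^ 2 + im y ^ 2) * (re y ^ 2 + im y ^ 2) ≤ 1 / 4 * (re y ^ 2 + im y ^ 2) :=
    mul_le_mul_of_nonneg_right h4 (by positivity)
  refine (le_abs_self _).trans (abs_le_of_sq_le_sq ?_ ?_)
  · have h7 : (1 - δ ^ 2 / 2) ^ 2 = 1 - δ ^ 2 + (δ ^ 2) ^ 2 / 4 := by ring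
    linarith [sq_nonneg (δ ^ 2), sq_nonneg δ]
  · linarith [sq_nonneg (im y)]

theorem row {s : ℕ → K} (hs : Summable fun j => ‖s j‖) {C ε : ℝ} (hC : ∑' j, ‖s j‖ ≤ C)
    (hε : 0 < ε) {m : ℕ} (hm : ε < ‖s m‖) (hη : ∑' j, ‖s j‖ - re (∑' j, s j) ≤ ε ^ 2 / (128 * C))
    (i : ℕ) (y : K)
    (hy : y = ((4 * C)⁻¹ : ℝ) * (∑ j ∈ range (m + 1), s j - ∑ j ∈ range i, s j - (ε / 2 : ℝ))) :
    ‖y‖ ≤ 1 / 2 ∧ ‖1 - y ^ 2‖ ≤ 1 - (ε / (16 * C)) ^ 2 / 2 ∧ (i ≤ m → 0 < re y) ∧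
      (m < i → re y < 0) := by
  have hA : ∀ A : Finset ℕ, ∑ j ∈ A, ‖s j‖ ≤ C := fun A =>
    (hs.sum_le_tsum _ fun _ _ => norm_nonneg _).trans hC
  have hεC : ε < C := hm.trans_le (by simpa using hA {m})
  have hC0 : 0 < C := hε.trans hεC
  have he0 : ∀ j, 0 ≤ ‖s j‖ - re (s j) := fun j => sub_nonneg.2 (re_le_norm _)
  have he : ∀ A : Finset ℕ, ∑ j ∈ A, (‖s j‖ - re (s j)) ≤ ε ^ 2 / (128 * C) := fun A =>
    le_trans (sum_le_hasSum A (fun j _ => he0 j)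
      (hs.hasSum.sub (hasSum_re K hs.of_norm.hasSum))) hη
  have hη4 : ε ^ 2 / (128 * C) ≤ ε / 4 := by
    rw [div_le_div_iff₀ (by positivity) (by norm_num)]
    linarith [mul_pos hε (sub_pos.2 hεC), mul_pos hε hC0]
  have hre : ∀ A : Finset ℕ, ∑ j ∈ A, ‖s j‖ - ε / 4 ≤ re (∑ j ∈ A, s j) := fun A => by
    have := he A
    rw [sum_sub_distrib] at this
    rw [map_sum]
    linarith
  have him : ∀ A : Finset ℕ, |im (∑ j ∈ A, s j)| ≤ ε / 8 := fun A => by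
    have h1 : ∀ j, |im (s j)| ≤ ε / (16 * C) * ‖s j‖ + 8 * C / ε * (‖s j‖ - re (s j)) := by
      intro j
      have h2 := norm_sq_eq_def (z := s j)
      have h3 := he0 j
      have h4 : ε / (16 * C) * (8 * C / ε) = 1 / 2 := by field_simp; norm_num
      have h5 : 0 ≤ ε / (16 * C) * ‖s j‖ := by positivity
      have h6 : 0 ≤ 8 * C / ε * (‖s j‖ - re (s j)) := by positivity
      refine abs_le_of_sq_le_sq ?_ (add_nonneg h5 h6)
      have h7 : ε / (16 * C) * ‖s j‖ * (8 * C / ε * (‖s j‖ - re (s j))) =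
          1 / 2 * (‖s j‖ * (‖s j‖ - re (s j))) := by rw [← h4]; ring
      generalize ε / (16 * C) * ‖s j‖ = p at *
      generalize 8 * C / ε * (‖s j‖ - re (s j)) = q at *
      linarith [sq_nonneg (p - q), sq_nonneg (‖s j‖ - re (s j))]
    rw [map_sum]
    refine (abs_sum_le_sum_abs _ _).trans ((sum_le_sum fun j _ => h1 j).trans ?_)
    rw [sum_add_distrib, ← mul_sum, ← mul_sum]
    refine (add_le_add (mul_le_mul_of_nonneg_left (hA A) (by positivity))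
      (mul_le_mul_of_nonneg_left (he A) (by positivity))).trans (le_of_eq ?_)
    field_simp
    norm_num
  obtain ⟨w, hw, h1, h2, h3, h4⟩ : ∃ w : K,
      w = ∑ j ∈ range (m + 1), s j - ∑ j ∈ range i, s j ∧ ‖w‖ ≤ C ∧ |im w| ≤ ε / 8 ∧
      (i ≤ m → 3 * ε / 4 ≤ re w) ∧ (m < i → re w ≤ ε / 4) := by
    refine ⟨_, rfl, ?_⟩
    rcases le_or_gt i m with h | h
    · rw [← sum_Ico_eq_sub _ (Nat.le_succ_of_le h)]
      refine ⟨(norm_sum_le _ _).trans (hA _), him _, fun _ => ?_, fun h' => absurd h (not_le.2 h')⟩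
      have := single_le_sum (f := fun j => ‖s j‖) (fun _ _ => norm_nonneg _)
        (mem_Ico.2 ⟨h, Nat.lt_succ_self m⟩)
      linarith [hre (Ico i (m + 1))]
    · rw [← neg_sub, ← sum_Ico_eq_sub _ (Nat.succ_le_of_lt h), norm_neg, map_neg, abs_neg, map_neg]
      refine ⟨(norm_sum_le _ _).trans (hA _), him _, fun h' => absurd h' (not_le.2 h), fun _ => ?_⟩
      have := sum_nonneg (s := Ico (m + 1) i) fun j _ => norm_nonneg (s j)
      linarith [hre (Ico (m + 1) i)]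
  rw [← hw] at hy
  have hi : 0 < (4 * C)⁻¹ := by positivity
  have hr : re y = (4 * C)⁻¹ * (re w - ε / 2) := by rw [hy, re_ofReal_mul, map_sub, ofReal_re]
  have hI : im y = (4 * C)⁻¹ * im w := by
    rw [hy, im_ofReal_mul, map_sub, ofReal_im, sub_zero]
  have hn : ‖y‖ ≤ 1 / 2 := by
    rw [hy, norm_mul, norm_ofReal, abs_of_pos hi, inv_mul_le_iff₀ (by positivity)]
    refine (norm_sub_le _ _).trans ?_
    rw [norm_ofReal, abs_of_pos (half_pos hε)]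
    linarith
  have hδ : ε / (16 * C) = (4 * C)⁻¹ * (ε / 4) := by field_simp; norm_num
  refine ⟨hn, lobe ?_ ?_ hn, fun h => ?_, fun h => ?_⟩
  · rw [hδ, hr, mul_pow, mul_pow]
    refine mul_le_mul_of_nonneg_left ?_ (by positivity)
    rcases le_or_gt i m with h | h
    · exact pow_le_pow_left₀ (by positivity) (by linarith [h3 h]) 2
    · rw [← neg_sq (re w - ε / 2)]
      exact pow_le_pow_left₀ (by positivity) (by linarith [h4 h]) 2
  · rw [hδ, hI, mul_pow, mul_pow, mul_div_assoc]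
    refine mul_le_mul_of_nonneg_left ?_ (by positivity)
    have := pow_le_pow_left₀ (abs_nonneg _) h2 2
    rw [sq_abs] at this
    linarith
  · rw [hr]
    exact mul_pos hi (by linarith [h3 h])
  · rw [hr]
    exact mul_neg_of_pos_of_neg hi (by linarith [h4 h])

end Pool.Agent.P.MP_f511bc_an.Pos
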