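import Mathlib

/-! The sign of the real part as a power series in `1 - y ^ 2`. -/

open Finset Filter Topology RCLike

namespace Pool.Agent.P.MP_f511bc_an.Pos

theorem coef : ∃ c : ℕ → ℝ, (∀ j, |c j| ≤ 1) ∧ c 0 = 1 ∧
    ∀ n, ∑ p ∈ antidiagonal n, c p.1 * c p.2 = 1 := by
  have hd : ∀ n : ℕ, |(descPochhammer ℤ n).smeval (-1 / 2 : ℝ)| ≤ n.factorial := by
    intro n
    induction n with
    | zero => simp
    | succ n ih =>
      rw [descPochhammer_succ_right, Polynomial.smeval_mul, abs_mul, Nat.factorial_succ]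
      have h : |(Polynomial.X - (n : Polynomial ℤ)).smeval (-1 / 2 : ℝ)| ≤ (n : ℝ) + 1 := by
        rw [Polynomial.smeval_sub, Polynomial.smeval_X, Polynomial.smeval_natCast, abs_le]
        have : (0 : ℝ) ≤ n := n.cast_nonneg
        constructor <;> simp <;> linarith
      push_cast
      rw [mul_comm ((n : ℝ) + 1)]
      exact mul_le_mul ih h (abs_nonneg _) (Nat.cast_nonneg _)
  refine ⟨fun j => (-1) ^ j * Ring.choose (-1 / 2 : ℝ) j, fun j => ?_, by simp, fun n => ?_⟩
  · rw [abs_mul, abs_pow, abs_neg, abs_one, one_pow, one_mul, Ring.choose_eq_smul, smul_eq_mul,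
      abs_mul, abs_inv, Nat.abs_cast]
    have : (0 : ℝ) < j.factorial := by exact_mod_cast j.factorial_pos
    rw [inv_mul_le_iff₀ this, mul_one]
    exact hd j
  · have h1 := Ring.add_choose_eq (r := (-1 / 2 : ℝ)) (s := -1 / 2) n (Commute.all _ _)
    have h2 : Ring.choose (-1 / 2 + -1 / 2 : ℝ) n = (-1) ^ n := by
      rw [show (-1 / 2 + -1 / 2 : ℝ) = -1 by norm_num, Ring.choose_neg, add_sub_cancel_left,
        Ring.choose_natCast, Nat.choose_self, Units.smul_def, Int.coe_negOnePow_natCast]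
      simp
    have h3 : ∑ p ∈ antidiagonal n, (-1) ^ p.1 * Ring.choose (-1 / 2 : ℝ) p.1 *
        ((-1) ^ p.2 * Ring.choose (-1 / 2 : ℝ) p.2) = (-1) ^ n * ∑ p ∈ antidiagonal n,
        Ring.choose (-1 / 2 : ℝ) p.1 * Ring.choose (-1 / 2 : ℝ) p.2 := by
      rw [mul_sum]
      refine sum_congr rfl fun p hp => ?_
      rw [← mem_antidiagonal.1 hp, pow_add]
      ring
    rw [h3, ← h1, h2, ← mul_pow]
    simp

theorem sign_series (K : Type*) [RCLike K] : ∃ c : ℕ → K, (∀ j, ‖c j‖ ≤ 1) ∧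
    ∀ y : K, ‖1 - y ^ 2‖ < 1 → re y ≠ 0 →
      HasSum (fun j => c j * y * (1 - y ^ 2) ^ j) (if 0 < re y then 1 else -1) := by
  obtain ⟨c, hc, hc0, hcc⟩ := coef
  have hb : ∀ (u : K) (q : ℝ) j, ‖u‖ ≤ q → ‖(c j : K) * u ^ j‖ ≤ q ^ j := fun u q j h => by
    rw [norm_mul, norm_pow, norm_ofReal]
    exact (mul_le_of_le_one_left (by positivity) (hc j)).trans
      (pow_le_pow_left₀ (norm_nonneg _) h j)
  have hs : ∀ u : K, ‖u‖ < 1 → Summable fun j => ‖(c j : K) * u ^ j‖ := fun u hu =>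
    Summable.of_nonneg_of_le (fun _ => norm_nonneg _) (fun j => hb u _ j le_rfl)
      (summable_geometric_of_lt_one (norm_nonneg _) hu)
  have hsq : ∀ u : K, ‖u‖ < 1 →
      (∑' j, (c j : K) * u ^ j) * (∑' j, (c j : K) * u ^ j) * (1 - u) = 1 := by
    intro u hu
    rw [tsum_mul_tsum_eq_tsum_sum_antidiagonal_of_summable_norm (hs u hu) (hs u hu)]
    have e : ∀ n, ∑ p ∈ antidiagonal n, (c p.1 : K) * u ^ p.1 * ((c p.2 : K) * u ^ p.2) =
        u ^ n := by
      intro n
      have h : ∑ p ∈ antidiagonal n, (c p.1 : K) * c p.2 = 1 := by exact_mod_cast hcc n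
      rw [← one_mul (u ^ n), ← h, sum_mul]
      refine sum_congr rfl fun p hp => ?_
      rw [← mem_antidiagonal.1 hp, pow_add]
      ring
    simp only [e]
    exact geom_series_mul_neg u hu
  have hne : ∀ u : K, ‖u‖ < 1 → re (∑' j, (c j : K) * u ^ j) ≠ 0 := by
    intro u hu h
    have h1 := congrArg re (hsq u hu)
    have h2 : 0 < re (1 - u) := by
      have := (re_le_norm u).trans_lt hu
      simpa using this
    simp only [mul_re, mul_im, h, one_re] at h1
    nlinarith [mul_nonneg (mul_self_nonneg (im (∑' j, (c j : K) * u ^ j))) h2.le]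
  have hpos : ∀ u : K, ‖u‖ < 1 → 0 < re (∑' j, (c j : K) * u ^ j) := by
    intro u hu
    have hsu : ∀ s ∈ Set.Icc (0 : ℝ) 1, ‖(s : K) * u‖ ≤ ‖u‖ := fun s h => by
      rw [norm_mul, norm_ofReal, abs_of_nonneg h.1]
      exact mul_le_of_le_one_left (norm_nonneg _) h.2
    have hco : ContinuousOn (fun s : ℝ => re (∑' j, (c j : K) * ((s : K) * u) ^ j))
        (Set.Icc 0 1) :=
      continuous_re.comp_continuousOn (continuousOn_tsum
        (fun j => (continuous_const.mul
          ((continuous_ofReal.mul continuous_const).pow j)).continuousOn)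
        (summable_geometric_of_lt_one (norm_nonneg _) hu) fun j s h => hb _ _ j (hsu s h))
    by_contra h
    have h0 : re (∑' j, (c j : K) * (((0 : ℝ) : K) * u) ^ j) = 1 := by
      rw [tsum_eq_single 0 fun j hj => by simp [hj]]
      simp [hc0]
    obtain ⟨s, hs1, hs2⟩ := intermediate_value_Icc' zero_le_one hco
      (show (0 : ℝ) ∈ Set.Icc _ _ from ⟨by simpa using h, by rw [h0]; exact zero_le_one⟩)
    exact hne _ ((hsu s hs1).trans_lt hu) hs2
  refine ⟨fun j => c j, fun j => by rw [norm_ofReal]; exact hc j, fun y hy h0 => ?_⟩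
  have h1 := (hs _ hy).of_norm.hasSum.mul_left y
  have h2 := hsq _ hy
  have h3 := hpos _ hy
  set z := ∑' j, (c j : K) * (1 - y ^ 2) ^ j
  have h4 : y * z * (y * z) = 1 := by rw [← h2]; ring
  have h5 : ∀ e : ℝ, y * z = e → ‖z‖ ^ 2 * re y = e * re z := by
    intro e he
    have h6 : ((‖z‖ ^ 2 : ℝ) : K) * y = e * (starRingEnd K) z := by
      rw [← he, ofReal_pow, ← mul_conj]
      ring
    simpa only [re_ofReal_mul, conj_re] using congrArg re h6
  have h7 : y * z = if 0 < re y then 1 else -1 := by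
    have hz := sq_nonneg ‖z‖
    rcases mul_self_eq_one_iff.1 h4 with h | h
    · have := h5 1 (by rw [h, ofReal_one])
      rw [h, if_pos]
      by_contra h8
      nlinarith [mul_nonneg hz (neg_nonneg.2 (not_lt.1 h8))]
    · have := h5 (-1) (by rw [h, ofReal_neg, ofReal_one])
      rw [h, if_neg]
      intro h8
      nlinarith [mul_nonneg hz h8.le]
  have e2 : (fun j => (c j : K) * y * (1 - y ^ 2) ^ j) =
      fun j => y * ((c j : K) * (1 - y ^ 2) ^ j) := funext fun j => by ring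
  exact e2 ▸ h7 ▸ h1

end Pool.Agent.P.MP_f511bc_an.Pos
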