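import Pool.Agent.P.MP_f511bc_an.Main
import Pool.Agent.P.MP_f511bc_an.DefsB
import Pool.Agent.P.MP_f511bc_an.Pos.Ser
import Pool.Agent.P.MP_f511bc_an.Pos.Row
import Pool.Agent.P.MP_f511bc_an.Pos.Core
import Pool.Agent.P.MP_f511bc_an.Pos.Fdd

/-! An almost nonnegative consistent matrix without small runs forces a Schauder basis. -/

open Finset Filter Topology

namespace Pool.Agent.P.MP_f511bc_an.Pos

variable {K E : Type*} [RCLike K] [NormedAddCommGroup E] [NormedSpace K E]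

/-- The operators attached to a summation basis. -/
theorem setup [CompleteSpace E] {t : ℕ → ℕ → K} {x : ℕ → E} (ht : Consistent t)
    (hx : IsTBasis t x) : ∃ (f : ℕ → E →L[K] K) (σ : ℕ → E →ₗ[K] E) (L : ℝ), 0 ≤ L ∧
      (∀ i j, f i (x j) = if i = j then 1 else 0) ∧ (∀ n v, ‖σ n v‖ ≤ L * ‖v‖) ∧
      (∀ n i, σ n (x i) = (∑' m, t n m - ∑ m ∈ range i, t n m) • x i) ∧
      Dense (Submodule.span K (Set.range x) : Set E) := by
  obtain ⟨a, σ, h1, h2, hu⟩ := exists_lin hx
  choose Cf hCf using coef_cont a σ h1 h2 hu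
  let f : ℕ → E →L[K] K := fun i =>
    LinearMap.mkContinuous ((LinearMap.proj i).comp a) (Cf i) (hCf i)
  have hfa : ∀ i y, f i y = a y i := fun _ _ => rfl
  have ha : ∀ j, a (x j) = Pi.single j 1 := fun j => hu _ _ (expands_single ht x j)
  let B : ℕ → ℕ → E →L[K] E := fun n M =>
    ∑ m ∈ range M, t n m • ∑ i ∈ range (m + 1), (f i).smulRight (x i)
  have hB : ∀ n y, Tendsto (fun M => B n M y) atTop (𝓝 (σ n y)) := fun n y =>
    (h1 n y).congr fun M => by simp [B, sec_apply, hfa]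
  choose D hD using fun n => banach_steinhaus (g := B n) fun y => bdd_of_tendsto (hB n y)
  have hσ : ∀ n y, ‖σ n y‖ ≤ D n * ‖y‖ := fun n y =>
    le_of_tendsto' (hB n y).norm fun M => (B n M).le_of_opNorm_le (hD n M) y
  obtain ⟨L, hL⟩ := banach_steinhaus (g := fun n => (σ n).mkContinuous (D n) (hσ n))
    fun y => bdd_of_tendsto (h2 y)
  refine ⟨f, σ, L, (norm_nonneg _).trans (hL 0), fun i j => ?_, fun n y =>
    ((σ n).mkContinuous (D n) (hσ n)).le_of_opNorm_le (hL n) y, fun n i => ?_, fun y => ?_⟩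
  · rw [hfa, ha, Pi.single_apply]
  · obtain ⟨⟨C, hC⟩, -, -⟩ := ht
    refine tendsto_nhds_unique (h1 n (x i))
      ((((hC n).1.of_norm.hasSum.tendsto_sum_nat.sub_const _).smul_const (x i)).congr'
        ((eventually_ge_atTop i).mono fun M hM => ?_))
    simp only [sec_apply, ha]
    rw [← sum_Ico_eq_sub _ hM, sum_smul, ← sum_range_add_sum_Ico _ hM,
      sum_eq_zero (s := range i), zero_add]
    · refine sum_congr rfl fun m hm => ?_
      have : i ≤ m := (mem_Ico.1 hm).1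
      simp [Pi.single_apply, this]
    · intro m hm
      have : ¬ i ≤ m := not_le.2 (mem_range.1 hm)
      simp [Pi.single_apply, this]
  · refine isClosed_closure.mem_of_tendsto (h2 y) (Eventually.of_forall fun n => ?_)
    refine mem_closure_of_tendsto (h1 n y) (Eventually.of_forall fun M => ?_)
    rw [sec_apply]
    exact Submodule.sum_mem _ fun m _ => Submodule.smul_mem _ _ (Submodule.sum_mem _ fun i _ =>
      Submodule.smul_mem _ _ (Submodule.subset_span ⟨i, rfl⟩))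

theorem main [CompleteSpace E] {t : ℕ → ℕ → K} {x : ℕ → E} (ht : Consistent t)
    (h1 : Tendsto (fun n => ∑' m, ‖t n m‖) atTop (𝓝 1)) (hs : ¬ SmallRuns t)
    (hx : IsTBasis t x) :
    ∃ e : ℕ → E, ∀ y, ∃! a : ℕ → K, Tendsto (fun n => ∑ i ∈ range n, a i • e i) atTop (𝓝 y) := by
  obtain ⟨f, σ, L0, hL0, hf, hσ, hσx, hd⟩ := setup ht hx
  obtain ⟨⟨C, hC⟩, -, hT⟩ := ht
  simp only [SmallRuns, not_forall, not_exists, not_and, not_le] at hs
  obtain ⟨ε, hε, d, a1, hs⟩ := hs
  have hA : ∀ n (A : Finset ℕ), ∑ j ∈ A, ‖t n j‖ ≤ C := fun n A =>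
    ((hC n).1.sum_le_tsum _ fun _ _ => norm_nonneg _).trans (hC n).2
  have hεC : ε < C := by
    obtain ⟨m, -, -, n, h⟩ := hs a1 le_rfl
    exact h.trans_le (by simpa using hA n {m})
  have hC0 : 0 < C := hε.trans hεC
  obtain ⟨n0, hn0⟩ : ∃ n0, ∀ n, n0 ≤ n →
      ∑' j, ‖t n j‖ - RCLike.re (∑' j, t n j) ≤ ε ^ 2 / (128 * C) := by
    have h := h1.sub ((RCLike.continuous_re.tendsto _).comp hT)
    rw [RCLike.one_re, sub_self] at h
    exact eventually_atTop.1 (h.eventually (ge_mem_nhds (by positivity)))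
  obtain ⟨a2, ha2⟩ : ∃ a2, ∀ m, a2 ≤ m → ∀ n ∈ range n0, ‖t n m‖ ≤ ε :=
    eventually_atTop.1 ((eventually_all_finset _).2 fun n _ =>
      (hC n).1.tendsto_atTop_zero.eventually (ge_mem_nhds hε))
  obtain ⟨a0, h01, h02⟩ : ∃ a0, a1 ≤ a0 ∧ a2 ≤ a0 := ⟨max a1 a2, le_max_left _ _, le_max_right _ _⟩
  choose m hm1 hm2 ρ hρ using fun p => hs (max p a0) (h01.trans (le_max_right _ _))
  have hρ0 : ∀ p, n0 ≤ ρ p := fun p => not_lt.1 fun h => (hρ p).not_ge
    (ha2 _ (h02.trans ((le_max_right _ _).trans (hm1 p))) _ (mem_range.2 h))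
  obtain ⟨M, hM0, hM1⟩ : ∃ M : ℕ → ℕ, M 0 = 0 ∧ ∀ k, M (k + 1) = m (M k) + 1 :=
    ⟨fun k => Nat.rec 0 (fun _ p => m p + 1) k, rfl, fun _ => rfl⟩
  have hM : StrictMono M := strictMono_nat_of_lt_succ fun k => by
    have := hm1 (M k)
    rw [hM1]
    omega
  have hD : ∀ k, M (k + 1) ≤ M k + (a0 + d + 1) := fun k => by
    have := hm2 (M k)
    rw [hM1]
    omega
  obtain ⟨κ, hκ1, hκ⟩ : ∃ κ : ℕ → ℕ, (∀ i, M (κ i) ≤ i) ∧ ∀ i k, κ i ≤ k ↔ i < M (k + 1) := by
    have h1 : ∀ i, M (Nat.findGreatest (fun k : ℕ => M k ≤ i) i) ≤ i := fun i =>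
      Nat.findGreatest_spec (P := fun k : ℕ => M k ≤ i) (Nat.zero_le i) (by simp [hM0])
    refine ⟨_, h1, fun i k =>
      ⟨fun h => ?_, fun h => Nat.lt_succ_iff.1 (hM.lt_iff_lt.1 ((h1 i).trans_lt h))⟩⟩
    by_contra h2
    have h3 := Nat.le_findGreatest (P := fun k : ℕ => M k ≤ i)
      ((hM.id_le _).trans (not_lt.1 h2)) (not_lt.1 h2)
    simp only [id] at h3
    omega
  have hκ2 : ∀ i, i < M (κ i + 1) := fun i => (hκ i _).1 le_rfl
  let c : ℕ → ℕ → ℕ := fun r a => min (M a + r) (M (a + 1) - 1)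
  have hcm : ∀ r a, c r a ≤ c r (a + 1) := fun r a => by
    have h1 := hM (Nat.lt_succ_self a)
    have h2 := hM (Nat.lt_succ_self (a + 1))
    simp only [c, Nat.succ_eq_add_one] at *
    omega
  let S : ℕ → ℕ → K := fun k i => ∑ j ∈ range i, t (ρ (M k)) j
  let Y : ℕ → ℕ → K := fun k i => ((4 * C)⁻¹ : ℝ) * (S k (m (M k) + 1) - S k i - (ε / 2 : ℝ))
  have hY := fun k i => row (hC (ρ (M k))).1 (hC _).2 hε (hρ (M k)) (hn0 _ (hρ0 _)) i (Y k i) rfl
  have hi : 0 < (4 * C)⁻¹ := by positivity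
  have hδ : 0 < (ε / (16 * C)) ^ 2 := by positivity
  have hδ1 : (ε / (16 * C)) ^ 2 ≤ 1 :=
    pow_le_one₀ (by positivity) (by rw [div_le_one (by positivity)]; linarith)
  have hside : ∀ k i, κ i ≤ k ↔ i ≤ m (M k) := fun k i => by rw [hκ, hM1, Nat.lt_succ_iff]
  obtain ⟨cf, hcf, hser⟩ := sign_series K
  have hcoef : ∀ N (α : ℕ → K) i, i < N → f i (ev x N α) = α i := by
    intro N α i hi
    simp [ev_apply, hf, hi]
  obtain ⟨b, γ, hb, -, -, hcore⟩ := core x κ (fun i => i - M (κ i)) c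
    (fun i => by
      have h1 := hκ1 i
      have h2 := hκ2 i
      simp only [c]
      omega)
    Y (L := (4 * C)⁻¹ * (L0 + 3 * C)) (θ := 1 - (ε / (16 * C)) ^ 2 / 2) (V := 1) cf hcf
    (by linarith) (by linarith) (by positivity) (fun k i => (hY k i).2.1)
    (fun k r n => by
      let p : ℕ → ℝ := fun a => ∑ j ∈ range (c r a), ‖t (ρ (M k)) j‖
      have h1 : ∀ a, ‖Y k (c r a) ^ 2 - Y k (c r (a + 1)) ^ 2‖ ≤ (4 * C)⁻¹ * (p (a + 1) - p a) := by
        intro a
        have h3 : ‖Y k (c r a) + Y k (c r (a + 1))‖ ≤ 1 :=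
          (norm_add_le_of_le (hY k _).1 (hY k _).1).trans (by norm_num)
        have h4 : Y k (c r a) - Y k (c r (a + 1)) =
            ((4 * C)⁻¹ : ℝ) * ∑ j ∈ Ico (c r a) (c r (a + 1)), t (ρ (M k)) j := by
          rw [sum_Ico_eq_sub _ (hcm r a)]
          simp only [Y, S]
          ring
        rw [sq_sub_sq, norm_mul]
        refine (mul_le_of_le_one_left (norm_nonneg _) h3).trans ?_
        rw [h4, norm_mul, RCLike.norm_ofReal, abs_of_pos hi, ← sum_Ico_eq_sub _ (hcm r a)]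
        exact mul_le_mul_of_nonneg_left (norm_sum_le _ _) hi.le
      refine (sum_le_sum fun a _ => h1 a).trans ?_
      rw [← mul_sum, sum_range_sub p, inv_mul_le_iff₀ (by positivity)]
      have h5 : p n ≤ C := hA _ _
      have h6 : 0 ≤ p 0 := sum_nonneg fun _ _ => norm_nonneg _
      linarith)
    (fun k i => by
      have hu : ‖1 - Y k i ^ 2‖ < 1 := (hY k i).2.1.trans_lt (by linarith)
      by_cases h : κ i ≤ k
      · have h2 := (hY k i).2.2.1 ((hside k i).1 h)
        simpa only [if_pos h, if_pos h2] using hser _ hu h2.ne'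
      · have h2 := (hY k i).2.2.2 (not_le.1 fun h' => h ((hside k i).2 h'))
        simpa only [if_neg h, if_neg h2.not_gt] using hser _ hu h2.ne)
    (fun N k α => by
      let g : K := ∑' j, t (ρ (M k)) j - S k (m (M k) + 1) + (ε / 2 : ℝ)
      have e : (ev x N fun i => Y k i * α i) =
          (((4 * C)⁻¹ : ℝ) : K) • (σ (ρ (M k)) (ev x N α) - g • ev x N α) := by
        simp only [ev_apply, map_sum, map_smul, hσx, smul_sum, ← sum_sub_distrib, smul_smul,
          ← sub_smul]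
        refine sum_congr rfl fun i _ => ?_
        congr 1
        simp only [Y, g, S]
        ring
      have hg : ‖g‖ ≤ 3 * C := by
        refine (norm_add_le_of_le (norm_sub_le_of_le ((norm_tsum_le_tsum_norm (hC _).1).trans
          (hC _).2) ((norm_sum_le _ _).trans (hA _ _))) le_rfl).trans ?_
        rw [RCLike.norm_ofReal, abs_of_pos (half_pos hε)]
        linarith
      rw [e, norm_smul, RCLike.norm_ofReal, abs_of_pos hi, mul_assoc]
      refine mul_le_mul_of_nonneg_left ((norm_sub_le _ _).trans ?_) hi.le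
      rw [add_mul, norm_smul]
      exact add_le_add (hσ _ _) (mul_le_mul_of_nonneg_right hg (norm_nonneg _)))
    (fun N => ⟨∑ i ∈ range N, ‖f i‖ * ‖x i‖, by positivity, fun k α => by
      rw [ev_apply x N (cut κ k α), sum_mul]
      refine (norm_sum_le _ _).trans (sum_le_sum fun i hi => ?_)
      have h1 : ‖cut κ k α i‖ ≤ ‖f i‖ * ‖ev x N α‖ := by
        refine le_trans ?_ ((f i).le_opNorm _)
        rw [hcoef N α i (mem_range.1 hi)]
        simp only [cut]
        split_ifs <;> simp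
      rw [norm_smul, mul_right_comm]
      exact mul_le_mul_of_nonneg_right h1 (norm_nonneg _)⟩)
    (a0 + d + 1)
  refine fdd_basis x f hf hd M hM0 hM _ hD b fun k v hv => ?_
  rcases k with _ | k
  · simpa [hM0] using mul_nonneg hb (norm_nonneg v)
  obtain ⟨α, rfl⟩ := Finsupp.mem_span_range_iff_exists_finsupp.1 hv
  obtain ⟨N, hN1, hN2⟩ : ∃ N, M (k + 1) ≤ N ∧ α.support ⊆ range N :=
    ⟨max (M (k + 1)) (α.support.sup id + 1), le_max_left _ _, fun i hi => mem_range.2
      (lt_of_lt_of_le (Nat.lt_succ_of_le (le_sup (f := id) hi)) (le_max_right _ _))⟩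
  have e : (α.sum fun i a => a • x i) = ev x N α := by
    rw [ev_apply, Finsupp.sum_of_support_subset _ hN2 _ fun i _ => zero_smul K (x i)]
  rw [e]
  refine le_trans (le_of_eq ?_) ((hcore N α fun i hi => ?_).1 k)
  · congr 1
    rw [ev_apply x N (cut κ k α)]
    refine (sum_congr rfl fun i hi => ?_).trans (sum_subset (range_mono hN1) fun i _ hi => ?_)
    · rw [hcoef N α i ((mem_range.1 hi).trans_le hN1)]
      simp only [cut, if_pos ((hκ i k).2 (mem_range.1 hi))]
    · simp only [cut, if_neg fun h => hi (mem_range.2 ((hκ i k).1 h)), zero_smul]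
  · have h1 := hκ2 i
    have h2 := hD (κ i)
    omega

end Pool.Agent.P.MP_f511bc_an.Pos
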